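import Pool.Agent.H752.KM.Stubs
import Pool.Agent.H620R2.Gauge.S

/-! Task K4d: the estimate. -/

namespace Pool.Agent.H752.KM

open Pool.Agent.NPC Pool.Agent.H620R2.Gauge MeasureTheory Finset

namespace K4dL

/-- the telescoping bound -/
theorem two_div_le (l n : ℕ) (h : l + 2 ≤ 2 ^ (n + 1)) :
    2 / (4 : ℝ) ^ n ≤ 8 / ((l : ℝ) + 1) - 8 / ((l : ℝ) + 2) := by
  have h1 : ((l : ℝ) + 2) ≤ 2 * 2 ^ n := by
    have : ((l + 2 : ℕ) : ℝ) ≤ ((2 ^ (n + 1) : ℕ) : ℝ) := by exact_mod_cast h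
    push_cast at this
    rw [pow_succ] at this
    linarith
  have hl : (0 : ℝ) ≤ l := Nat.cast_nonneg l
  have h4 : (4 : ℝ) ^ n = (2 ^ n) ^ 2 := by
    rw [← pow_mul, mul_comm, pow_mul]; norm_num
  have h2 : (0 : ℝ) < 2 ^ n := by positivity
  have h3 : ((l : ℝ) + 1) * (l + 2) ≤ 4 * 4 ^ n := by
    rw [h4]
    nlinarith
  have e : 8 / ((l : ℝ) + 1) - 8 / ((l : ℝ) + 2) = 8 / (((l : ℝ) + 1) * (l + 2)) := by
    field_simp
    ring
  rw [e, div_le_div_iff₀ (by positivity) (by positivity)]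
  linarith

theorem tele (a : ℕ) : ∀ b, a ≤ b → ∑ l ∈ Ico a b, (8 / ((l : ℝ) + 1) - 8 / ((l : ℝ) + 2)) =
    8 / ((a : ℝ) + 1) - 8 / ((b : ℝ) + 1) := by
  intro b hb
  induction b, hb using Nat.le_induction with
  | base => simp
  | succ b hb ih =>
    rw [Finset.sum_Ico_succ_top hb, ih]
    push_cast
    rw [show (b : ℝ) + 1 + 1 = b + 2 by ring]
    ring

theorem len (l : ℕ) : l + 2 ≤ 2 ^ ((str l).length + 1) ∧ l + 1 < 2 ^ ((str l).length + 1) := by
  rw [length_str]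
  have := Nat.lt_pow_succ_log_self (b := 2) (by norm_num) (l + 1)
  exact ⟨by omega, this⟩

end K4dL

open K4dL in
theorem t_sum : St_sum := by
  intro t P k n₀ L κ hκ hL hP1 hP2 ht
  have hn0 : (1 : ℝ) ≤ 2 ^ n₀ := one_le_pow₀ (by norm_num)
  have hcast : ((2 ^ n₀ - 1 : ℕ) : ℝ) + 1 = 2 ^ n₀ := by
    rw [Nat.cast_sub Nat.one_le_two_pow]
    push_cast
    ring
  -- the sum of the bounds
  have hS : ∀ b, 2 ^ n₀ - 1 ≤ b → ∑ l ∈ Ico (2 ^ n₀ - 1) b, 2 / (4 : ℝ) ^ (str l).length ≤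
      8 / 2 ^ n₀ := by
    intro b hb
    calc ∑ l ∈ Ico (2 ^ n₀ - 1) b, 2 / (4 : ℝ) ^ (str l).length
        ≤ ∑ l ∈ Ico (2 ^ n₀ - 1) b, (8 / ((l : ℝ) + 1) - 8 / ((l : ℝ) + 2)) :=
          Finset.sum_le_sum fun l _ => two_div_le l _ (len l).1
      _ = 8 / 2 ^ n₀ - 8 / ((b : ℝ) + 1) := by rw [tele _ b hb, hcast]
      _ ≤ 8 / 2 ^ n₀ := by
          have : (0 : ℝ) ≤ 8 / ((b : ℝ) + 1) := by positivity
          linarith
  refine add_le_add ?_ ?_
  · apply mul_le_mul_of_nonneg_left _ hκ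
    calc ∏ l ∈ Ico (2 ^ n₀ - 1) L, (1 + 2 / (4 : ℝ) ^ pl P l)
        ≤ ∏ l ∈ Ico (2 ^ n₀ - 1) L, Real.exp (2 / (4 : ℝ) ^ (str l).length) := by
          apply Finset.prod_le_prod
          · intro l _; positivity
          · intro l _
            have h1 : 2 / (4 : ℝ) ^ pl P l ≤ 2 / (4 : ℝ) ^ (str l).length := by
              apply div_le_div_of_nonneg_left (by norm_num) (by positivity)
              apply pow_le_pow_right₀ (by norm_num)
              have := hP2 (str l).length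
              unfold pl
              omega
            have h2 := Real.add_one_le_exp (2 / (4 : ℝ) ^ (str l).length)
            linarith
      _ = Real.exp (∑ l ∈ Ico (2 ^ n₀ - 1) L, 2 / (4 : ℝ) ^ (str l).length) :=
          (Real.exp_sum _ _).symm
      _ ≤ Real.exp 8 := by
          apply Real.exp_le_exp.2
          refine (hS L hL).trans ?_
          rw [div_le_iff₀ (by positivity)]
          linarith
  · have hI : Icc (2 ^ n₀ - 1) L = Ico (2 ^ n₀ - 1) (L + 1) := by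
      ext x
      simp only [Finset.mem_Icc, Finset.mem_Ico]
      omega
    rw [hI]
    refine le_trans (Finset.sum_le_sum fun l _ => ?_) (hS (L + 1) (by omega))
    set n := (str l).length with hn
    have hlen := len l
    rw [← hn] at hlen
    have key : ∀ N, N ≤ 5 * 2 ^ (n + 1) + 4 * k + 8 →
        (t N : ℝ) ≤ 2 ^ P.eval n / (3 * 4 ^ n) := by
      intro N hN
      rw [le_div_iff₀ (by positivity)]
      exact_mod_cast ht n N hN
    have k1 := key (5 * l + 4 * k + 8) (by omega)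
    have k2 := key (5 * (l + 1) + 4 * k + 8) (by omega)
    have hpl : pl P l = P.eval n := rfl
    rw [hpl]
    have h4 : (0 : ℝ) < 4 ^ n := by positivity
    have h2 : (0 : ℝ) < 2 ^ P.eval n := by positivity
    calc ((t (5 * l + 4 * k + 8) : ℝ) + 2 * t (5 * (l + 1) + 4 * k + 8)) * (2 / 2 ^ P.eval n)
        ≤ (2 ^ P.eval n / (3 * 4 ^ n) + 2 * (2 ^ P.eval n / (3 * 4 ^ n))) *
          (2 / 2 ^ P.eval n) := by
          apply mul_le_mul_of_nonneg_right _ (by positivity)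
          linarith
      _ = 2 / 4 ^ n := by
          field_simp
          ring

end Pool.Agent.H752.KM
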